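import Mathlib
import Pool.Agent.Helper14.GT.AB

/-!
# MP_7c440d_co: drawings of `K_n` without aligned clusters need `n / 4 - o(n)` layers

The vertices of a drawing of the complete graph in `t` plane layers are divided into `M` classes.
A pair of classes is *clean* if their convex hulls are disjoint and no line meets both hulls and
the hull of a third class.
-/

namespace Pool.Agent.Results.MP_7c440d_co.AlignmentBound

/-- `p` places the vertices of `G` in the plane as a geometric drawing: different vertices get
different points, and no edge (closed segment) passes through a vertex other than its two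
endpoints. -/
def IsGeometricDrawing {V : Type*} (G : SimpleGraph V) (p : V → ℝ × ℝ) : Prop :=
  Function.Injective p ∧
    ∀ a b : V, G.Adj a b → ∀ v : V, v ≠ a → v ≠ b → p v ∉ segment ℝ (p a) (p b)

/-- The segments `p a, p b` and `p c, p d` share a point that is not a common endpoint of the
edges `ab` and `cd`. -/
def Cross {V : Type*} (p : V → ℝ × ℝ) (a b c d : V) : Prop :=
  ∃ x : ℝ × ℝ, x ∈ segment ℝ (p a) (p b) ∧ x ∈ segment ℝ (p c) (p d) ∧
    ¬ ∃ v : V, (v = a ∨ v = b) ∧ (v = c ∨ v = d) ∧ x = p v

/-- `p` is a geometric drawing of `G` whose edges can be coloured with `k` colours so that no two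
different edges of the same colour cross. -/
def DrawnIn {V : Type*} (G : SimpleGraph V) (p : V → ℝ × ℝ) (k : ℕ) : Prop :=
  IsGeometricDrawing G p ∧ ∃ col : Sym2 V → Fin k,
    ∀ a b c d : V, G.Adj a b → G.Adj c d → s(a, b) ≠ s(c, d) → col s(a, b) = col s(c, d) →
      ¬ Cross p a b c d

/-- The convex hull of the points of the class `i`. -/
def Hull {V : Type*} {M : ℕ} (p : V → ℝ × ℝ) (c : V → Fin M) (i : Fin M) : Set (ℝ × ℝ) :=
  convexHull ℝ (p '' {v | c v = i})

/-- The pair of classes `i`, `j` is clean: `i ≠ j`, the two hulls are disjoint and no line meets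
both of them and the hull of a third class. -/
def Clean {V : Type*} {M : ℕ} (p : V → ℝ × ℝ) (c : V → Fin M) (i j : Fin M) : Prop :=
  i ≠ j ∧ Disjoint (Hull p c i) (Hull p c j) ∧
    ∀ k, k ≠ i → k ≠ j → ∀ x ∈ Hull p c i, ∀ y ∈ Hull p c j, ∀ z ∈ Hull p c k,
      ¬ Collinear ℝ ({x, y, z} : Set (ℝ × ℝ))

open Classical in
/-- The number of ordered pairs of vertices whose classes form a clean pair. -/
noncomputable def cleanPairs {V : Type*} [Fintype V] {M : ℕ} (p : V → ℝ × ℝ) (c : V → Fin M) :
    ℕ :=
  (Finset.univ.filter (fun e : V × V => Clean p c (c e.1) (c e.2))).card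

open Classical in
/-- The number of ordered pairs of vertices in different classes which form no clean pair. -/
noncomputable def alignedPairs {V : Type*} [Fintype V] {M : ℕ} (p : V → ℝ × ℝ)
    (c : V → Fin M) : ℕ :=
  (Finset.univ.filter (fun e : V × V => c e.1 ≠ c e.2 ∧ ¬ Clean p c (c e.1) (c e.2))).card

open Classical in
/-- The number of vertices of the class `i`. -/
noncomputable def classSize {V : Type*} [Fintype V] {M : ℕ} (c : V → Fin M) (i : Fin M) : ℕ :=
  (Finset.univ.filter (fun v => c v = i)).card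

/-- **Main theorem.**  Let the complete graph on `V` be drawn in `t` plane layers.

1. For every division of `V` into `M` classes,
   `3 * #(ordered pairs in clean pairs of classes) + #(other ordered pairs in different classes)`
   is at most `6 t (2 |V| + M ^ 4)`.
2. For all `M` and `ε > 0` there is an `N` such that for `n ≥ N`, every drawing of `K_n` in at
   most `(1 / 4 - η) n` layers and every division into `M` classes with at most `ε n` vertices
   each, at least `(6 η - 2 ε) n ^ 2` ordered pairs lie in pairs of classes that are not clean.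
3. In particular, if all pairs of classes are clean, there are at least `(1 / 4 - ε) n` layers.
4. For every configuration `q` of `M` points, no three of them collinear, there is a `δ > 0` such
   that every drawing of the complete graph on `V` in `t` layers, with every vertex within `δ`
   of a point of `q`, satisfies `|V| ^ 2 - ∑ (class size) ^ 2 ≤ 2 t (2 |V| + M ^ 4)`. -/
theorem result :
    (∀ (V : Type) [Fintype V] (t M : ℕ) (p : V → ℝ × ℝ) (c : V → Fin M),
      DrawnIn (⊤ : SimpleGraph V) p t →
        3 * cleanPairs p c + alignedPairs p c ≤ 6 * t * (2 * Fintype.card V + M ^ 4)) ∧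
    (∀ (M : ℕ) (ε : ℝ), 0 < ε → ∃ N : ℕ, ∀ n : ℕ, N ≤ n → ∀ (t : ℕ) (p : Fin n → ℝ × ℝ)
      (c : Fin n → Fin M) (η : ℝ), DrawnIn (⊤ : SimpleGraph (Fin n)) p t →
        (∀ i, (classSize c i : ℝ) ≤ ε * n) → 0 ≤ η → (t : ℝ) ≤ (1 / 4 - η) * n →
          (6 * η - 2 * ε) * n ^ 2 ≤ alignedPairs p c) ∧
    (∀ (M : ℕ) (ε : ℝ), 0 < ε → ∃ N : ℕ, ∀ n : ℕ, N ≤ n → ∀ (t : ℕ) (p : Fin n → ℝ × ℝ)
      (c : Fin n → Fin M), DrawnIn (⊤ : SimpleGraph (Fin n)) p t →
        (∀ i, (classSize c i : ℝ) ≤ ε * n) → (∀ i j, i ≠ j → Clean p c i j) →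
          (1 / 4 - ε) * n ≤ t) ∧
    (∀ (M : ℕ) (q : Fin M → ℝ × ℝ), Function.Injective q →
      (∀ i j k, i ≠ j → i ≠ k → j ≠ k → ¬ Collinear ℝ ({q i, q j, q k} : Set (ℝ × ℝ))) →
        ∃ δ : ℝ, 0 < δ ∧ ∀ (V : Type) [Fintype V] (t : ℕ) (p : V → ℝ × ℝ) (c : V → Fin M),
          DrawnIn (⊤ : SimpleGraph V) p t → (∀ v, dist (p v) (q (c v)) < δ) →
            Fintype.card V ^ 2 ≤
              2 * t * (2 * Fintype.card V + M ^ 4) + ∑ i, classSize c i ^ 2) :=
  Pool.Agent.Helper14.GT.AB.result

end Pool.Agent.Results.MP_7c440d_co.AlignmentBound
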