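import Pool.Agent.Helper14.GT.AvGeo

/-!
# MP_7c440d_co: drawings of `K_n` made of mutually avoiding clusters

The vertices of a drawing of the complete graph in `t` plane layers are divided into `M` classes
with disjoint convex hulls, such that the line through any two vertices meets the hull of no
class but those of the two vertices.  Then `t ≥ n / 4 - ∑ |V_i| ^ 2 / (12 n) - O(√n)`.
-/

namespace Pool.Agent.Results.MP_7c440d_co.AvoidingClusters

/-- `p` places the vertices of `G` in the plane as a geometric drawing: different vertices get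
different points, and no edge (closed segment) passes through a vertex other than its two
endpoints. -/
def IsGeometricDrawing {V : Type*} (G : SimpleGraph V) (p : V → ℝ × ℝ) : Prop :=
  Function.Injective p ∧
    ∀ a b : V, G.Adj a b → ∀ v : V, v ≠ a → v ≠ b → p v ∉ segment ℝ (p a) (p b)

/-- The segments `p a, p b` and `p c, p d` share a point that is not a common endpoint of the
edges `ab` and `cd`. -/
def Cross {V : Type*} (p : V → ℝ × ℝ) (a b c d : V) : Prop :=
  ∃ x : ℝ × ℝ, x ∈ segment ℝ (p a) (p b) ∧ x ∈ segment ℝ (p c) (p d) ∧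
    ¬ ∃ v : V, (v = a ∨ v = b) ∧ (v = c ∨ v = d) ∧ x = p v

/-- `p` is a geometric drawing of `G` whose edges can be coloured with `k` colours so that no two
different edges of the same colour cross. -/
def DrawnIn {V : Type*} (G : SimpleGraph V) (p : V → ℝ × ℝ) (k : ℕ) : Prop :=
  IsGeometricDrawing G p ∧ ∃ col : Sym2 V → Fin k,
    ∀ a b c d : V, G.Adj a b → G.Adj c d → s(a, b) ≠ s(c, d) → col s(a, b) = col s(c, d) →
      ¬ Cross p a b c d

/-- The convex hull of the points of the class `i`. -/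
def Hull {V : Type*} {M : ℕ} (p : V → ℝ × ℝ) (c : V → Fin M) (i : Fin M) : Set (ℝ × ℝ) :=
  convexHull ℝ (p '' {v | c v = i})

/-- The hulls of different classes are disjoint, and the line through two vertices meets the hull
of no class other than the classes of these two vertices. -/
def Avoiding {V : Type*} {M : ℕ} (p : V → ℝ × ℝ) (c : V → Fin M) : Prop :=
  (∀ i j, i ≠ j → Disjoint (Hull p c i) (Hull p c j)) ∧
    ∀ u v : V, u ≠ v → ∀ k, k ≠ c u → k ≠ c v → ∀ z ∈ Hull p c k,
      ¬ Collinear ℝ ({p u, p v, z} : Set (ℝ × ℝ))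

open Classical in
/-- The number of vertices of the class `i`. -/
noncomputable def classSize {V : Type*} [Fintype V] {M : ℕ} (c : V → Fin M) (i : Fin M) : ℕ :=
  (Finset.univ.filter (fun v => c v = i)).card

theorem sum_sq {V : Type*} [Fintype V] {M : ℕ} (c : V → Fin M) :
    ∑ i, classSize c i ^ 2 = ∑ v, Helper24.GT.cnt (fun u => c u = c v) := by
  classical
  have h1 : ∀ v, Helper24.GT.cnt (fun u => c u = c v) = classSize c (c v) := by
    intro v
    unfold Helper24.GT.cnt classSize
    congr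
  simp only [h1]
  have h2 : ∑ v, classSize c (c v) = ∑ i, ∑ v ∈ Finset.univ.filter (fun v => c v = i),
      classSize c (c v) := (Finset.sum_fiberwise _ _ _).symm
  rw [h2]
  refine Finset.sum_congr rfl (fun i _ => ?_)
  rw [Finset.sum_congr rfl (g := fun _ => classSize c i)
    (fun v hv => by rw [(Finset.mem_filter.1 hv).2])]
  rw [Finset.sum_const, smul_eq_mul, sq]
  congr 1

theorem size_bound {V : Type*} [Fintype V] {M : ℕ} (c : V → Fin M) {b : ℝ}
    (hb : ∀ i, (classSize c i : ℝ) ≤ b) :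
    ((∑ i, classSize c i ^ 2 : ℕ) : ℝ) ≤ b * Fintype.card V := by
  classical
  have h1 : ∑ i, classSize c i = Fintype.card V := by
    have := Finset.card_eq_sum_card_fiberwise (s := (Finset.univ : Finset V)) (f := c)
      (t := Finset.univ) (fun _ _ => Finset.mem_univ _)
    rw [Finset.card_univ] at this
    rw [this]
    refine Finset.sum_congr rfl (fun i _ => ?_)
    unfold classSize
    congr
  rw [← h1]
  push_cast
  rw [Finset.mul_sum]
  refine Finset.sum_le_sum (fun i _ => ?_)
  rw [sq]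
  exact mul_le_mul_of_nonneg_right (hb i) (Nat.cast_nonneg _)

theorem main (M : ℕ) : ∃ C : ℝ, 0 ≤ C ∧ ∀ (n t : ℕ) (p : Fin n → ℝ × ℝ)
    (c : Fin n → Fin M), DrawnIn (⊤ : SimpleGraph (Fin n)) p t → Avoiding p c →
      (n : ℝ) / 4 - ((∑ i, classSize c i ^ 2 : ℕ) : ℝ) / (12 * n) - C * Real.sqrt n ≤ t := by
  obtain ⟨C, hC0, hC⟩ := Helper14.GT.numeric2 M
  refine ⟨C, hC0, ?_⟩
  intro n t p c h hav
  rcases Nat.eq_zero_or_pos n with h0 | hn
  · subst h0
    have : (0 : ℝ) ≤ t := Nat.cast_nonneg _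
    simp
  refine hC n t _ ?_
  intro s
  obtain ⟨hdr, col, hcol⟩ := h
  obtain ⟨ε, L, hX, hgp, hL, hcov, hdis⟩ := Helper14.GT.coordinates (col := col) hdr hcol
  haveI : Nonempty (Fin n) := ⟨⟨0, hn⟩⟩
  have h1 := Helper14.GT.main_count2 (Helper14.GT.avRel (p := p) (c := c) hav ε) hX hgp hL hcov
    hdis s
  rw [← sum_sq, Fintype.card_fin] at h1
  exact h1

/-- **Main theorem.**  Let `K_n` be drawn in `t` plane layers such that its vertices are divided
into `M` classes whose hulls are disjoint, and the line through any two vertices meets the hull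
of no class but those of the two vertices.

1. `t ≥ n / 4 - ∑ (class size) ^ 2 / (12 n) - C √n` with a constant `C` which depends on `M`
   only.
2. For `M`, `β` and `ε > 0` there is an `N` such that `t ≥ (1 / 4 - β / 12 - ε) n` if `n ≥ N` and
   every class has at most `β n` vertices.  For `M` classes of equal size this is
   `t ≥ (1 / 4) (1 - 1 / (3 M)) n - ε n`. -/
theorem result :
    (∀ M : ℕ, ∃ C : ℝ, 0 ≤ C ∧ ∀ (n t : ℕ) (p : Fin n → ℝ × ℝ) (c : Fin n → Fin M),
      DrawnIn (⊤ : SimpleGraph (Fin n)) p t → Avoiding p c →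
        (n : ℝ) / 4 - ((∑ i, classSize c i ^ 2 : ℕ) : ℝ) / (12 * n) - C * Real.sqrt n ≤ t) ∧
    (∀ (M : ℕ) (β ε : ℝ), 0 < ε → ∃ N : ℕ, ∀ n : ℕ, N ≤ n → ∀ (t : ℕ) (p : Fin n → ℝ × ℝ)
      (c : Fin n → Fin M), DrawnIn (⊤ : SimpleGraph (Fin n)) p t → Avoiding p c →
        (∀ i, (classSize c i : ℝ) ≤ β * n) → (1 / 4 - β / 12 - ε) * n ≤ t) := by
  refine ⟨main, ?_⟩
  intro M β ε hε
  obtain ⟨C, hC0, hC⟩ := main M
  refine ⟨⌈(C / ε) ^ 2⌉₊ + 1, ?_⟩
  intro n hn t p c h hav hsize
  have h1 := hC n t p c h hav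
  have h2 := size_bound c hsize
  rw [Fintype.card_fin] at h2
  have hn0 : (0 : ℝ) < n := by
    have : 0 < n := by omega
    exact_mod_cast this
  have h3 : ((∑ i, classSize c i ^ 2 : ℕ) : ℝ) / (12 * n) ≤ β / 12 * n := by
    rw [div_le_iff₀ (by positivity)]
    nlinarith
  have h4 : C * Real.sqrt n ≤ ε * n := by
    have g1 : (C / ε) ^ 2 ≤ n := by
      have g2 : (C / ε) ^ 2 ≤ (⌈(C / ε) ^ 2⌉₊ : ℝ) := Nat.le_ceil _
      have g3 : ((⌈(C / ε) ^ 2⌉₊ : ℕ) : ℝ) + 1 ≤ n := by exact_mod_cast hn
      linarith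
    have g2 : C / ε ≤ Real.sqrt n := by
      rw [← Real.sqrt_sq (show 0 ≤ C / ε by positivity)]
      exact Real.sqrt_le_sqrt g1
    have g3 : C ≤ ε * Real.sqrt n := by
      rw [div_le_iff₀ hε] at g2
      linarith
    have g4 : Real.sqrt n * Real.sqrt n = n := Real.mul_self_sqrt hn0.le
    calc C * Real.sqrt n ≤ ε * Real.sqrt n * Real.sqrt n :=
          mul_le_mul_of_nonneg_right g3 (Real.sqrt_nonneg _)
      _ = ε * n := by rw [mul_assoc, g4]
  linarith

end Pool.Agent.Results.MP_7c440d_co.AvoidingClusters
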