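import Mathlib
import Pool.Agent.Helper67.K13ThreeLayersProof

/-!
# MP_7c440d_co: the geometric thickness of `K₁₃` is at most 3

An explicit straight-line drawing of `K₁₃` on a small integer grid, with a 3-colouring of its 78
edges such that no two edges of the same colour cross.
-/

namespace Pool.Agent.Results.MP_7c440d_co.K13ThreeLayers

/-- `p` places the vertices of `G` in the plane as a geometric drawing: different vertices get
different points, and no edge (closed segment) passes through a vertex other than its two
endpoints. -/
def IsGeometricDrawing {V : Type*} (G : SimpleGraph V) (p : V → ℝ × ℝ) : Prop :=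
  Function.Injective p ∧
    ∀ a b : V, G.Adj a b → ∀ v : V, v ≠ a → v ≠ b → p v ∉ segment ℝ (p a) (p b)

/-- The segments `p a, p b` and `p c, p d` share a point that is not a common endpoint of the
edges `ab` and `cd`. -/
def Cross {V : Type*} (p : V → ℝ × ℝ) (a b c d : V) : Prop :=
  ∃ x : ℝ × ℝ, x ∈ segment ℝ (p a) (p b) ∧ x ∈ segment ℝ (p c) (p d) ∧
    ¬ ∃ v : V, (v = a ∨ v = b) ∧ (v = c ∨ v = d) ∧ x = p v

/-- `G` has a geometric drawing whose edges can be coloured with `k` colours so that no two
different edges of the same colour cross. -/
def DrawableIn {V : Type*} (G : SimpleGraph V) (k : ℕ) : Prop :=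
  ∃ (p : V → ℝ × ℝ) (col : Sym2 V → Fin k), IsGeometricDrawing G p ∧
    ∀ a b c d : V, G.Adj a b → G.Adj c d → s(a, b) ≠ s(c, d) → col s(a, b) = col s(c, d) →
      ¬ Cross p a b c d

/-- The geometric thickness: the least `k` such that `G` is drawable in `k` plane layers. -/
noncomputable def geometricThickness {V : Type*} (G : SimpleGraph V) : ℕ :=
  sInf {k : ℕ | DrawableIn G k}

/-- **The geometric thickness of `K₁₃` is at most 3**: the complete graph on 13 vertices has a
geometric drawing whose edges split into 3 plane layers. -/
theorem result : DrawableIn (⊤ : SimpleGraph (Fin 13)) 3 ∧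
    geometricThickness (⊤ : SimpleGraph (Fin 13)) ≤ 3 :=
  Helper67.K13.main

end Pool.Agent.Results.MP_7c440d_co.K13ThreeLayers
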