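import Pool.Agent.Helper24.GT.Fin.M

/-!
# MP_7c440d_co: a better lower bound for the geometric thickness of `K_n`

For every `c < (21 - √329) / 16 = 0.17885… = 1 / 5.591…` and all large `n`, the geometric
thickness of `K_n` is at least `c n`.
-/

namespace Pool.Agent.Results.MP_7c440d_co.LowerBound

/-- `p` places the vertices of `G` in the plane as a geometric drawing: different vertices get
different points, and no edge (closed segment) passes through a vertex other than its two
endpoints. -/
def IsGeometricDrawing {V : Type*} (G : SimpleGraph V) (p : V → ℝ × ℝ) : Prop :=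
  Function.Injective p ∧
    ∀ a b : V, G.Adj a b → ∀ v : V, v ≠ a → v ≠ b → p v ∉ segment ℝ (p a) (p b)

/-- The segments `p a, p b` and `p c, p d` share a point that is not a common endpoint of the
edges `ab` and `cd`. -/
def Cross {V : Type*} (p : V → ℝ × ℝ) (a b c d : V) : Prop :=
  ∃ x : ℝ × ℝ, x ∈ segment ℝ (p a) (p b) ∧ x ∈ segment ℝ (p c) (p d) ∧
    ¬ ∃ v : V, (v = a ∨ v = b) ∧ (v = c ∨ v = d) ∧ x = p v

/-- `G` has a geometric drawing whose edges can be coloured with `k` colours so that no two
different edges of the same colour cross. -/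
def DrawableIn {V : Type*} (G : SimpleGraph V) (k : ℕ) : Prop :=
  ∃ (p : V → ℝ × ℝ) (col : Sym2 V → Fin k), IsGeometricDrawing G p ∧
    ∀ a b c d : V, G.Adj a b → G.Adj c d → s(a, b) ≠ s(c, d) → col s(a, b) = col s(c, d) →
      ¬ Cross p a b c d

/-- The geometric thickness: the least `k` such that `G` is drawable in `k` plane layers. -/
noncomputable def geometricThickness {V : Type*} (G : SimpleGraph V) : ℕ :=
  sInf {k : ℕ | DrawableIn G k}

/-- The definition used in the helper files is the same. -/
theorem drawableIn_iff {V : Type*} (G : SimpleGraph V) (k : ℕ) :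
    DrawableIn G k ↔ Helper24.GT.DrawableIn G k := Iff.rfl

/-- Every complete graph is drawable in some number of layers: points on a parabola, and a layer
for each edge. -/
theorem exists_drawable (n : ℕ) : ∃ k, DrawableIn (⊤ : SimpleGraph (Fin n)) k := by
  classical
  refine ⟨Fintype.card (Sym2 (Fin n)), fun i => ((i : ℝ), (i : ℝ) ^ 2),
    Fintype.equivFin (Sym2 (Fin n)), ⟨?_, ?_⟩, ?_⟩
  · intro i j hij
    have h1 : ((i : ℕ) : ℝ) = ((j : ℕ) : ℝ) := congrArg Prod.fst hij
    exact Fin.ext (by exact_mod_cast h1)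
  · intro a b hab v hva hvb hseg
    obtain ⟨s, t, hs, ht, hst, he⟩ := hseg
    have e1 : s * (a : ℝ) + t * (b : ℝ) = (v : ℝ) := by
      simpa using congrArg Prod.fst he
    have e2 : s * (a : ℝ) ^ 2 + t * (b : ℝ) ^ 2 = (v : ℝ) ^ 2 := by
      simpa using congrArg Prod.snd he
    have hs' : s = 1 - t := by linarith
    have e3 : t * (1 - t) * ((a : ℝ) - b) ^ 2 = 0 := by
      have : s * (a : ℝ) ^ 2 + t * (b : ℝ) ^ 2 - (s * (a : ℝ) + t * (b : ℝ)) ^ 2 = 0 := by
        rw [e1, e2]; ring
      rw [hs'] at this
      linear_combination this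
    have hab' : ((a : ℕ) : ℝ) - ((b : ℕ) : ℝ) ≠ 0 := by
      intro h0
      apply hab.ne
      exact Fin.ext (by exact_mod_cast (sub_eq_zero.1 h0))
    rcases mul_eq_zero.1 e3 with h4 | h4
    · rcases mul_eq_zero.1 h4 with h5 | h5
      · apply hva
        rw [hs', h5] at e1
        have : ((v : ℕ) : ℝ) = ((a : ℕ) : ℝ) := by linarith
        exact Fin.ext (by exact_mod_cast this)
      · apply hvb
        have ht1 : t = 1 := by linarith
        rw [hs', ht1] at e1
        have : ((v : ℕ) : ℝ) = ((b : ℕ) : ℝ) := by linarith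
        exact Fin.ext (by exact_mod_cast this)
    · exact hab' (pow_eq_zero_iff (two_ne_zero) |>.1 h4)
  · intro a b c d _ _ hne hcol _
    exact hne ((Fintype.equivFin (Sym2 (Fin n))).injective hcol)

/-- **Lower bound for the geometric thickness of complete graphs.**  For every real
`c < (21 - √329) / 16` (this number is `0.17885… = 1 / 5.591…`) there is an `N` such that the
geometric thickness of `K_n` is at least `c n` for all `n ≥ N`. -/
theorem result (c : ℝ) (hc : c < (21 - Real.sqrt 329) / 16) :
    ∃ N : ℕ, ∀ n : ℕ, N ≤ n → c * n ≤ geometricThickness (⊤ : SimpleGraph (Fin n)) := by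
  obtain ⟨N, hN⟩ := Helper24.GT.main c hc
  refine ⟨N, fun n hn => hN n hn _ ?_⟩
  exact Nat.sInf_mem (s := {k : ℕ | DrawableIn (⊤ : SimpleGraph (Fin n)) k}) (exists_drawable n)

end Pool.Agent.Results.MP_7c440d_co.LowerBound
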